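import Pool.Agent.Helper547.OH.Conv
import Pool.Agent.Helper547.OH.P_main_all

set_option autoImplicit false

open Pool.Agent.OHS
open scoped InnerProductSpace

namespace Pool.Agent.Results.MP_246e44_an.OHEmbedding

theorem dual_iff {H : Type} [NormedAddCommGroup H] [InnerProductSpace ℂ H] [CompleteSpace H]
    (M : VonNeumannAlgebra H) {k : ℕ} (f : Fin k → Fin k → (M.toStarSubalgebra →L[ℂ] ℂ))
    (g : Fin k → Fin k → M → ℂ) (hfg : ∀ α β (x : M), g α β x = f α β ⟨(x : H →L[ℂ] H), x.2⟩)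
    (C : ℝ) : DualNormLe M g C ↔ Pool.Agent.OHP.DualLe M f C := by
  constructor
  · intro h l x hx
    have h1 := h l (fun p q => ⟨(x p q : H →L[ℂ] H), (x p q).2⟩) hx
    have h2 : (Matrix.of fun pa qb : Fin l × Fin k =>
        g pa.2 qb.2 ⟨(x pa.1 qb.1 : H →L[ℂ] H), (x pa.1 qb.1).2⟩) =
        (Matrix.of fun pa qb : Fin l × Fin k => f pa.2 qb.2 (x pa.1 qb.1)) := by
      ext pa qb
      exact hfg _ _ _
    rw [h2] at h1
    exact h1
  · intro h l x hx
    have h1 := h l (fun p q => ⟨(x p q : H →L[ℂ] H), (x p q).2⟩) hx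
    have h2 : (Matrix.of fun pa qb : Fin l × Fin k =>
        f pa.2 qb.2 ⟨(x pa.1 qb.1 : H →L[ℂ] H), (x pa.1 qb.1).2⟩) =
        (Matrix.of fun pa qb : Fin l × Fin k => g pa.2 qb.2 (x pa.1 qb.1)) := by
      ext pa qb
      exact (hfg _ _ _).symm
    rw [h2] at h1
    exact h1

theorem ohNorm_eq {k : ℕ} (v : Fin k → Fin k → lp (fun _ : ℕ => ℂ) 2) :
    Pool.Agent.OHP.ohNorm v = ohNorm v := by
  have h : (Matrix.of fun ab cd : Fin k × Fin k => ⟪v ab.2 cd.2, v ab.1 cd.1⟫_ℂ) =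
      (Matrix.of fun ab cd : Fin k × Fin k =>
        ∑' i : ℕ, v ab.1 cd.1 i * (starRingEnd ℂ) (v ab.2 cd.2 i)) := by
    ext ab cd
    simp only [Matrix.of_apply, lp.inner_eq_tsum, RCLike.inner_apply]
  unfold Pool.Agent.OHP.ohNorm ohNorm matNorm
  rw [h]

/-- `OH` embeds completely isometrically into the predual of a von Neumann algebra. -/
theorem result : ∃ (H : Type) (_ : NormedAddCommGroup H) (_ : InnerProductSpace ℂ H)
    (_ : CompleteSpace H) (M : VonNeumannAlgebra H) (J : lp (fun _ : ℕ => ℂ) 2 → M → ℂ),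
    IsCompletelyIsometric M J := by
  obtain ⟨H, i1, i2, i3, M, J, hJ, h1, -⟩ := Pool.Agent.OHP.main_all
  refine ⟨H, i1, i2, i3, M, fun v x => J v ⟨(x : H →L[ℂ] H), x.2⟩, ⟨?_, ?_⟩, ?_, ?_⟩
  · intro v w
    funext x
    exact congrArg (fun g : M.toStarSubalgebra →L[ℂ] ℂ => g ⟨(x : H →L[ℂ] H), x.2⟩)
      (J.map_add v w)
  · intro c v
    funext x
    exact congrArg (fun g : M.toStarSubalgebra →L[ℂ] ℂ => g ⟨(x : H →L[ℂ] H), x.2⟩)
      (J.map_smul c v)
  · intro v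
    exact conv_predual M (J v) (hJ v)
  · intro k v C hC
    rw [← ohNorm_eq]
    exact (dual_iff M (fun α β => J (v α β)) _ (fun _ _ _ => rfl) C).trans (h1 k v C hC)

end Pool.Agent.Results.MP_246e44_an.OHEmbedding
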